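import Pool.Agent.PVD.StmtsM1

/-! Squad PVD, row N_CHB: Chebyshev. -/

noncomputable section

namespace Pool.Agent.PVD.M.H92

open MeasureTheory Set

theorem measurable_or (n : ℕ) : MeasurableSet (Or n) := by
  have h : Or n = ⋂ j, {d : Fin n → ℝ | 0 ≤ d j} := by
    ext d
    simp only [mem_iInter]
    rfl
  rw [h]
  exact MeasurableSet.iInter fun j => measurableSet_le measurable_const (measurable_pi_apply j)

theorem chb (exi : ExiStmt) (var : VarStmt) : ChbStmt := by
  intro n th a s hth hs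
  obtain ⟨h1, -⟩ := exi n th hth
  obtain ⟨h3, h4⟩ := var n th a hth
  have hL : Measurable fun d : Fin n → ℝ => ∑ j, a j * (d j - (th j)⁻¹) :=
    Finset.measurable_sum _ fun j _ => ((measurable_pi_apply j).sub_const _).const_mul _
  have hS : MeasurableSet (Or n ∩ {d : Fin n → ℝ | s < |∑ j, a j * (d j - (th j)⁻¹)|}) := by
    apply (measurable_or n).inter
    exact measurableSet_lt measurable_const hL.abs
  have h5 : ∫ d in Or n ∩ {d : Fin n → ℝ | s < |∑ j, a j * (d j - (th j)⁻¹)|},
      s ^ 2 * Real.exp (-∑ j, th j * d j) ≤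
      ∫ d in Or n ∩ {d : Fin n → ℝ | s < |∑ j, a j * (d j - (th j)⁻¹)|},
        (∑ j, a j * (d j - (th j)⁻¹)) ^ 2 * Real.exp (-∑ j, th j * d j) := by
    apply setIntegral_mono_on
    · exact (h1.mono_set inter_subset_left).const_mul _
    · exact h3.mono_set inter_subset_left
    · exact hS
    · intro d hd
      apply mul_le_mul_of_nonneg_right _ (Real.exp_nonneg _)
      have h6 : s < |∑ j, a j * (d j - (th j)⁻¹)| := hd.2
      rw [← sq_abs (∑ j, a j * (d j - (th j)⁻¹))]
      exact pow_le_pow_left₀ hs.le h6.le 2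
  have h6 : ∫ d in Or n ∩ {d : Fin n → ℝ | s < |∑ j, a j * (d j - (th j)⁻¹)|},
        (∑ j, a j * (d j - (th j)⁻¹)) ^ 2 * Real.exp (-∑ j, th j * d j) ≤
      ∫ d in Or n, (∑ j, a j * (d j - (th j)⁻¹)) ^ 2 * Real.exp (-∑ j, th j * d j) := by
    apply setIntegral_mono_set h3
    · exact Filter.Eventually.of_forall fun d => mul_nonneg (sq_nonneg _) (Real.exp_nonneg _)
    · exact Filter.Eventually.of_forall inter_subset_left
  rw [integral_const_mul] at h5
  have h7 := h5.trans h6
  rw [h4] at h7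
  have hs2 : 0 < s ^ 2 := by positivity
  rw [div_mul_eq_mul_div, le_div_iff₀ hs2, mul_comm]
  exact h7

end Pool.Agent.PVD.M.H92
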